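import Pool.Agent.Lib.MP_acafa7_al.MS.H09.DelEdge
import Pool.Agent.Lib.MP_acafa7_al.F.IfaceG

/-! PaperF.md 2.5 for `PMap`, no adjacency hypothesis: deleting an edge, restriction to a set of
vertices. -/

namespace MSG.F08

open Classical MSG.H09

/-- the dart after `d` around its vertex, when the edge of `d` is deleted -/
noncomputable def skp {D : Type} (M : DMap D) (d : D) : D :=
  if M.φ (M.ι d) = M.ι d then M.φ d else M.φ (M.ι d)

/-- next dart after deleting the edge of `d` -/
noncomputable def nx {D : Type} (M : DMap D) (d x : D) : D :=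
  if M.φ x = d then skp M d else if M.φ x = M.ι d then skp M (M.ι d) else M.φ x

theorem skp_ne {D : Type} (M : DMap D) (d x : D) (h1 : x ≠ d) (h2 : x ≠ M.ι d)
    (h : M.φ x = d) : skp M d ≠ d ∧ skp M d ≠ M.ι d := by
  unfold skp
  split_ifs with h3
  · refine ⟨fun h4 => h1 (M.φ.injective (h.trans h4.symm)), fun h4 => ?_⟩
    exact M.ne d (M.φ.injective (h3.trans h4.symm))
  · exact ⟨fun h4 => h2 (M.φ.injective (h.trans h4.symm)), h3⟩

theorem nx_ne {D : Type} (M : DMap D) (d x : D) (h1 : x ≠ d) (h2 : x ≠ M.ι d) :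
    nx M d x ≠ d ∧ nx M d x ≠ M.ι d := by
  unfold nx
  split_ifs with h3 h4
  · exact skp_ne M d x h1 h2 h3
  · have := skp_ne M (M.ι d) x h2 (by rw [M.ιι]; exact h1) h4
    rw [M.ιι] at this
    exact ⟨this.2, this.1⟩
  · exact ⟨h3, h4⟩

theorem skp_eq {D : Type} (M : DMap D) (d : D) : skp M d = M.φ d ∨ skp M d = M.φ (M.ι d) := by
  unfold skp
  split_ifs
  · exact Or.inl rfl
  · exact Or.inr rfl

theorem skp_pair {D : Type} (M : DMap D) (d x y : D) (x1 : x ≠ d)
    (y2 : y ≠ M.ι d) (hx : M.φ x = d) (hy : M.φ y = M.ι d) (h : skp M d = skp M (M.ι d)) :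
    False := by
  unfold skp at h
  rw [M.ιι] at h
  split_ifs at h with h3 h4 h5
  · exact x1 (M.φ.injective (hx.trans h4.symm))
  · exact y2 (M.φ.injective (hy.trans h3.symm))
  · exact x1 (M.φ.injective (hx.trans h5.symm))
  · exact M.ne d (M.φ.injective h)

theorem nx_inj {D : Type} (M : DMap D) (d x y : D) (x1 : x ≠ d) (x2 : x ≠ M.ι d) (y1 : y ≠ d)
    (y2 : y ≠ M.ι d) (h : nx M d x = nx M d y) : x = y := by
  have key : ∀ z, z ≠ d → z ≠ M.ι d → M.φ z ≠ skp M d ∧ M.φ z ≠ skp M (M.ι d) := by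
    intro z z1 z2
    constructor
    · intro hz
      rcases skp_eq M d with h' | h'
      · exact z1 (M.φ.injective (hz.trans h'))
      · exact z2 (M.φ.injective (hz.trans h'))
    · intro hz
      rcases skp_eq M (M.ι d) with h' | h'
      · exact z2 (M.φ.injective (hz.trans h'))
      · rw [M.ιι] at h'
        exact z1 (M.φ.injective (hz.trans h'))
  unfold nx at h
  split_ifs at h with h3 h4 h5 h6 h7 h8 h9
  · exact M.φ.injective (h3.trans h4.symm)
  · exact (skp_pair M d x y x1 y2 h3 h5 h).elim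
  · exact ((key y y1 y2).1 h.symm).elim
  · exact (skp_pair M d y x y1 x2 h7 h6 h.symm).elim
  · exact M.φ.injective (h6.trans h8.symm)
  · exact ((key y y1 y2).2 h.symm).elim
  · exact ((key x x1 x2).1 h).elim
  · exact ((key x x1 x2).2 h).elim
  · exact M.φ.injective h

theorem skp_val {D : Type} (M : DMap D) (d : D) {T : Type} (g : D → T)
    (hg : ∀ z, g (M.φ z) = g (M.ι z)) : g (skp M d) = g d := by
  unfold skp
  split_ifs with h
  · rw [hg d, ← h, hg, M.ιι]
  · rw [hg, M.ιι]

theorem nx_val {D : Type} (M : DMap D) (d x : D) {T : Type} (g : D → T)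
    (hg : ∀ z, g (M.φ z) = g (M.ι z)) : g (nx M d x) = g (M.φ x) := by
  unfold nx
  split_ifs with h3 h4
  · rw [skp_val M d g hg, h3]
  · rw [skp_val M (M.ι d) g hg, h4]
  · rfl

/-- the map without the edge of `d` -/
noncomputable def dmap {V D : Type} [Fintype D] (M : PMap V D) (d : D) :
    PMap V {x : D // x ≠ d ∧ x ≠ M.ι d} where
  φ := Equiv.ofBijective (fun x => ⟨nx M.toDMap d x.1, nx_ne M.toDMap d x.1 x.2.1 x.2.2⟩)
    (Finite.injective_iff_bijective.1 (fun x y h => Subtype.ext
      (nx_inj M.toDMap d x.1 y.1 x.2.1 x.2.2 y.2.1 y.2.2 (congrArg Subtype.val h))))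
  ι :=
    { toFun := fun x => ⟨M.ι x.1, fun h => x.2.2 ((M.ιι x.1).symm.trans (congrArg M.ι h)),
        fun h => x.2.1 (M.ι.injective h)⟩
      invFun := fun x => ⟨M.ι x.1, fun h => x.2.2 ((M.ιι x.1).symm.trans (congrArg M.ι h)),
        fun h => x.2.1 (M.ι.injective h)⟩
      left_inv := fun _ => Subtype.ext (M.ιι _)
      right_inv := fun _ => Subtype.ext (M.ιι _) }
  ιι := fun _ => Subtype.ext (M.ιι _)
  ne := fun x h => M.ne x.1 (congrArg Subtype.val h)
  f := fun x => M.f x.1
  tgt := fun x => by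
    show M.f (M.ι x.1) = M.f (nx M.toDMap d x.1)
    rw [nx_val M.toDMap d x.1 M.f (fun z => (M.tgt z).symm), M.tgt]

theorem dmap_planar {V D : Type} [Fintype D] (M : PMap V D) (hP : M.Planar) (d : D) :
    (dmap M d).Planar := by
  have hr : ∀ x, (∃ x' : {x : D // x ≠ d ∧ x ≠ M.ι d}, x'.1 = x) ↔ (x ≠ d ∧ x ≠ M.ι d) := by
    intro x
    constructor
    · rintro ⟨x', rfl⟩
      exact x'.2
    · intro h
      exact ⟨⟨x, h⟩, rfl⟩
  have hι : ∀ x, (((dmap M d).ι x).1 : D) = M.ι x.1 := fun _ => rfl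
  have p1 : P1 M.toDMap (dmap M d).toDMap Subtype.val := by
    intro T g hg x
    exact nx_val M.toDMap d x.1 g hg
  rcases isEmpty_or_nonempty {x : D // x ≠ d ∧ x ≠ M.ι d} with he | he
  · intro k _
    exact ⟨fun _ => 0, fun x => (he.false x).elim, fun x => (he.false x).elim⟩
  · obtain ⟨x₀⟩ := he
    have p2 : P2 M.toDMap (dmap M d).toDMap Subtype.val d := by
      intro T g'
      set G : D → T := fun x => if h : x ≠ d ∧ x ≠ M.ι d then g' ⟨x, h⟩ else g' x₀ with hG
      have hGd : ∀ (x : D) (h : x ≠ d ∧ x ≠ M.ι d), G x = g' ⟨x, h⟩ := by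
        intro x h
        rw [hG]
        exact dif_pos h
      have hGn : ∀ (x : D), ¬ (x ≠ d ∧ x ≠ M.ι d) → G x = g' x₀ := by
        intro x h
        rw [hG]
        exact dif_neg h
      set A := skp M.toDMap d with hA
      set B := skp M.toDMap (M.ι d) with hB
      have hdι : d ≠ M.ι d := (M.ne d).symm
      refine ⟨fun x => if x = d then G A else if x = M.ι d then G B else G x, ?_, ?_, ?_, ?_⟩
      · intro x
        show (if x.1 = d then _ else _) = _
        rw [if_neg x.2.1, if_neg x.2.2, hGd _ x.2]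
      · intro x
        show (if M.φ x.1 = d then _ else _) = _
        have e1 : g' ((dmap M d).φ x) = G (nx M.toDMap d x.1) := by
          rw [hGd _ (nx_ne M.toDMap d x.1 x.2.1 x.2.2)]
          rfl
        rw [e1]
        unfold nx
        split_ifs <;> rfl
      · show (if M.φ d = d then G A else if M.φ d = M.ι d then G B else G (M.φ d)) =
          (if M.ι d = d then G A else if M.ι d = M.ι d then G B else G (M.ι d))
        rw [if_neg (M.ne d), if_pos rfl]
        by_cases h1 : M.φ d = d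
        · rw [if_pos h1]
          by_cases h2 : M.φ (M.ι d) = M.ι d
          · have eA : A = d := by rw [hA]; unfold skp; rw [if_pos h2]; exact h1
            have eB : B = M.ι d := by
              rw [hB]; unfold skp; rw [M.ιι, if_pos h1]; exact h2
            rw [eA, eB, hGn d (fun h => h.1 rfl), hGn (M.ι d) (fun h => h.2 rfl)]
          · have eA : A = M.φ (M.ι d) := by rw [hA]; unfold skp; rw [if_neg h2]
            have eB : B = M.φ (M.ι d) := by rw [hB]; unfold skp; rw [M.ιι, if_pos h1]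
            rw [eA, eB]
        · rw [if_neg h1]
          by_cases h2 : M.φ d = M.ι d
          · rw [if_pos h2]
          · rw [if_neg h2]
            have eB : B = M.φ d := by rw [hB]; unfold skp; rw [M.ιι, if_neg h1]
            rw [eB]
      · show (if M.φ (M.ι d) = d then G A else if M.φ (M.ι d) = M.ι d then G B else
            G (M.φ (M.ι d))) = (if d = d then G A else if d = M.ι d then G B else G d)
        rw [if_pos rfl]
        by_cases h1 : M.φ (M.ι d) = d
        · rw [if_pos h1]
        · rw [if_neg h1]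
          by_cases h2 : M.φ (M.ι d) = M.ι d
          · rw [if_pos h2]
            have eA : A = M.φ d := by rw [hA]; unfold skp; rw [if_pos h2]
            by_cases h3 : M.φ d = d
            · have eB : B = M.φ (M.ι d) := by rw [hB]; unfold skp; rw [M.ιι, if_pos h3]
              rw [eA, eB, h3, h2, hGn d (fun h => h.1 rfl), hGn (M.ι d) (fun h => h.2 rfl)]
            · have eB : B = M.φ d := by rw [hB]; unfold skp; rw [M.ιι, if_neg h3]
              rw [eA, eB]
          · rw [if_neg h2]
            have eA : A = M.φ (M.ι d) := by rw [hA]; unfold skp; rw [if_neg h2]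
            rw [eA]
    exact planar_tr hr hι p1 p2 hP

theorem restr_aux (V : Type) (W : Set V) : ∀ (n : ℕ) (D : Type) [Fintype D] (M : PMap V D),
    Fintype.card D = n → M.Planar →
    ∃ (D' : Type) (_ : Fintype D') (M' : PMap V D') (q : D' → D), Function.Injective q ∧
      (∀ d, (∃ x, q x = d) ↔ M.f d ∈ W ∧ M.f (M.ι d) ∈ W) ∧
      (∀ x, M'.f x = M.f (q x) ∧ q (M'.ι x) = M.ι (q x)) ∧
      (∀ x y, M.φ (q x) = q y → M'.φ x = y) ∧ M'.Planar := by
  intro n
  induction n using Nat.strong_induction_on with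
  | _ n ih =>
  intro D _ M hn hP
  by_cases hall : ∀ x, M.f x ∈ W ∧ M.f (M.ι x) ∈ W
  · exact ⟨D, inferInstance, M, id, Function.injective_id, fun x => ⟨fun _ => hall x,
      fun _ => ⟨x, rfl⟩⟩, fun _ => ⟨rfl, rfl⟩, fun _ _ h => h, hP⟩
  · push Not at hall
    obtain ⟨d, hd⟩ := hall
    have hdW : ¬ (M.f d ∈ W ∧ M.f (M.ι d) ∈ W) := fun h => hd h.1 h.2
    have hιW : ¬ (M.f (M.ι d) ∈ W ∧ M.f (M.ι (M.ι d)) ∈ W) := by
      rw [M.ιι]
      exact fun h => hd h.2 h.1
    have hcard : Fintype.card {x : D // x ≠ d ∧ x ≠ M.ι d} < n := by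
      rw [← hn]
      refine Fintype.card_lt_of_injective_of_notMem Subtype.val Subtype.val_injective (b := d) ?_
      rintro ⟨x', hx'⟩
      exact x'.2.1 hx'
    obtain ⟨D', i', M', q, hq, hr, hf, hφ, hP'⟩ :=
      ih _ hcard {x : D // x ≠ d ∧ x ≠ M.ι d} (dmap M d) rfl (dmap_planar M hP d)
    refine ⟨D', i', M', fun x => (q x).1, fun x y h => hq (Subtype.ext h), ?_, ?_, ?_, hP'⟩
    · intro x
      constructor
      · rintro ⟨x', rfl⟩
        exact (hr (q x')).1 ⟨x', rfl⟩
      · intro hx
        have h1 : x ≠ d := by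
          rintro rfl
          exact hdW hx
        have h2 : x ≠ M.ι d := by
          rintro rfl
          exact hιW hx
        obtain ⟨x', hx'⟩ := (hr ⟨x, h1, h2⟩).2 hx
        exact ⟨x', congrArg Subtype.val hx'⟩
    · intro x
      refine ⟨(hf x).1, ?_⟩
      show (q (M'.ι x)).1 = _
      rw [(hf x).2]
      rfl
    · intro x y h
      refine hφ x y (Subtype.ext ?_)
      show nx M.toDMap d (q x).1 = (q y).1
      have h1 : M.φ (q x).1 = (q y).1 := h
      unfold nx
      rw [if_neg (by rw [h1]; exact (q y).2.1), if_neg (by rw [h1]; exact (q y).2.2), h1]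

theorem restr_st : RestrStatement := by
  intro V D _ M W hP
  exact restr_aux V W _ D M rfl hP

end MSG.F08
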